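import Mathlib
import Pool.Agent.helper77.Final
import Pool.Agent.helper77.Basis

/-!
# The maximal tensor product of separable C*-algebras is a Borel construction
-/

set_option autoImplicit false

namespace Pool.Agent.Results.MP_829dc7_lc.BorelMaxTensor

open Pool.Agent.helper77

universe u

/-- For every separable infinite-dimensional complex Hilbert space `H` there is a Borel map
`Φ : Γ(H) × Γ(H) → Γ(H)` such that for all `γ`, `δ` the C*-algebra generated by `Φ (γ, δ)` is the
maximal tensor product of the C*-algebras generated by `γ` and by `δ`. -/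
theorem result (H : Type u) [NormedAddCommGroup H] [InnerProductSpace ℂ H] [CompleteSpace H]
    [TopologicalSpace.SeparableSpace H] (hH : ¬ FiniteDimensional ℂ H) :
    ∃ Φ : Gam H × Gam H → Gam H, Measurable Φ ∧
      ∀ γ δ : Gam H, IsMaxTensorProduct (cstar γ) (cstar δ) (cstar (Φ (γ, δ))) := by
  obtain ⟨b⟩ := exists_hilbertBasis_nat H hH
  exact borel_max_tensor H b

end Pool.Agent.Results.MP_829dc7_lc.BorelMaxTensor
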